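import Mathlib

/-!
# Definitions for problem MP_4da166_co

Berge hypergraphs in (0,1)-matrices, the extremal function `Bh` and the matrix `F = 1₁ × C₄`.
-/

set_option autoImplicit false

namespace Pool.Agent.Lib.MP_4da166_co

open Finset

/-- A (0,1)-matrix is simple if it has no two equal columns. -/
def IsSimple {m n : ℕ} (A : Matrix (Fin m) (Fin n) (Fin 2)) : Prop :=
  ∀ j j', (∀ i, A i j = A i j') → j = j'

/-- `F ≪ A`: some submatrix `B` of `A` (rows `r`, columns `c`, in their order), of the size of `F`,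
satisfies `G ≤ B` entrywise for a matrix `G` obtained from `F` by permuting rows and columns. -/
def HasBerge {k l m n : ℕ} (F : Matrix (Fin k) (Fin l) (Fin 2))
    (A : Matrix (Fin m) (Fin n) (Fin 2)) : Prop :=
  ∃ (r : Fin k ↪o Fin m) (c : Fin l ↪o Fin n) (σ : Equiv.Perm (Fin k)) (τ : Equiv.Perm (Fin l)),
    ∀ i j, F (σ i) (τ j) ≤ A (r i) (c j)

/-- `Bh m F`: the largest number of columns of an `m`-rowed simple matrix without `F` as a
Berge hypergraph. -/
noncomputable def Bh {k l : ℕ} (m : ℕ) (F : Matrix (Fin k) (Fin l) (Fin 2)) : ℕ :=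
  sSup {n | ∃ A : Matrix (Fin m) (Fin n) (Fin 2), IsSimple A ∧ ¬ HasBerge F A}

/-- The matrix `1₁ × C₄`. -/
def F : Matrix (Fin 5) (Fin 4) (Fin 2) :=
  !![1, 1, 1, 1;
     1, 1, 0, 0;
     0, 0, 1, 1;
     1, 0, 1, 0;
     0, 1, 0, 1]

/-- embeddings instead of order embeddings and permutations -/
theorem factor {k m : ℕ} (f : Fin k → Fin m) (hf : Function.Injective f) :
    ∃ (r : Fin k ↪o Fin m) (σ : Equiv.Perm (Fin k)), ∀ i, f (σ i) = r i := by
  classical
  have hcard : (univ.image f).card = k := by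
    rw [card_image_of_injective _ hf, card_univ, Fintype.card_fin]
  let r := (univ.image f).orderEmbOfFin hcard
  have hr : ∀ i, ∃ j, f j = r i := by
    intro i
    have := Finset.orderEmbOfFin_mem (univ.image f) hcard i
    rw [mem_image] at this
    obtain ⟨j, -, hj⟩ := this
    exact ⟨j, hj⟩
  choose s hs using hr
  have hsinj : Function.Injective s := by
    intro a b hab
    apply r.injective
    rw [← hs, ← hs, hab]
  exact ⟨r, Equiv.ofBijective s (Finite.injective_iff_bijective.1 hsinj), fun i => hs i⟩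

theorem hasBerge_iff {k l m n : ℕ} (F : Matrix (Fin k) (Fin l) (Fin 2))
    (A : Matrix (Fin m) (Fin n) (Fin 2)) :
    HasBerge F A ↔ ∃ (r : Fin k → Fin m) (c : Fin l → Fin n), Function.Injective r ∧
      Function.Injective c ∧ ∀ i j, F i j ≤ A (r i) (c j) := by
  constructor
  · rintro ⟨r, c, σ, τ, h⟩
    refine ⟨fun i => r (σ.symm i), fun j => c (τ.symm j), r.injective.comp σ.symm.injective,
      c.injective.comp τ.symm.injective, fun i j => ?_⟩
    have := h (σ.symm i) (τ.symm j)
    simpa using this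
  · rintro ⟨r, c, hr, hc, h⟩
    obtain ⟨r', σ, hσ⟩ := factor r hr
    obtain ⟨c', τ, hτ⟩ := factor c hc
    refine ⟨r', c', σ, τ, fun i j => ?_⟩
    rw [← hσ, ← hτ]
    exact h _ _

/-- number of columns of a simple matrix is at most `2 ^ m` -/
theorem simple_card {m n : ℕ} (A : Matrix (Fin m) (Fin n) (Fin 2)) (hA : IsSimple A) :
    n ≤ 2 ^ m := by
  have : Function.Injective (fun j : Fin n => fun i => A i j) := by
    intro j j' h
    exact hA j j' (fun i => congrFun h i)
  have := Fintype.card_le_of_injective _ this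
  simpa using this

theorem Bh_bdd {k l : ℕ} (m : ℕ) (F : Matrix (Fin k) (Fin l) (Fin 2)) :
    BddAbove {n | ∃ A : Matrix (Fin m) (Fin n) (Fin 2), IsSimple A ∧ ¬ HasBerge F A} :=
  ⟨2 ^ m, fun _ ⟨A, hA, _⟩ => simple_card A hA⟩

/-- `Bh m F` is attained (sanity check: it is a genuine maximum). -/
theorem Bh_isGreatest {k l : ℕ} (m : ℕ) (F : Matrix (Fin k) (Fin (l + 1)) (Fin 2)) :
    IsGreatest {n | ∃ A : Matrix (Fin m) (Fin n) (Fin 2), IsSimple A ∧ ¬ HasBerge F A}
      (Bh m F) := by
  refine ⟨Nat.sSup_mem ⟨0, fun _ j => j.elim0, fun j => j.elim0, ?_⟩ (Bh_bdd m F),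
    fun n hn => le_csSup (Bh_bdd m F) hn⟩
  rintro ⟨r, c, -⟩
  exact (c 0).elim0

/-! ## The downset argument -/

end Pool.Agent.Lib.MP_4da166_co
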