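import Pool.Agent.Lib.MP_4da166_co.Defs

/-!
# From matrices to downsets
-/

set_option autoImplicit false

namespace Pool.Agent.Lib.MP_4da166_co

open Finset

/-- Every injective family of sets can be pushed down to a downset. -/
theorem exists_down {m n : ℕ} (S : Fin n → Finset (Fin m)) (hS : Function.Injective S) :
    ∃ φ : Fin n → Finset (Fin m), Function.Injective φ ∧ (∀ j, φ j ⊆ S j) ∧
      ∀ j, ∀ x ∈ φ j, ∃ j', φ j' = (φ j).erase x := by
  classical
  let P : ℕ → Prop := fun s => ∃ φ : Fin n → Finset (Fin m), Function.Injective φ ∧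
    (∀ j, φ j ⊆ S j) ∧ ∑ j, (φ j).card = s
  have hP : ∃ s, P s := ⟨_, S, hS, fun _ => subset_rfl, rfl⟩
  obtain ⟨φ, h1, h2, h3⟩ := Nat.find_spec hP
  refine ⟨φ, h1, h2, ?_⟩
  intro j x hx
  by_contra hcon
  push Not at hcon
  have hlt : ∑ i, (Function.update φ j ((φ j).erase x) i).card < Nat.find hP := by
    rw [← h3]
    apply Finset.sum_lt_sum
    · intro i _
      by_cases hi : i = j
      · subst hi
        rw [Function.update_self]
        exact Finset.card_le_card (Finset.erase_subset _ _)
      · rw [Function.update_of_ne hi]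
    · refine ⟨j, mem_univ _, ?_⟩
      rw [Function.update_self]
      exact Finset.card_erase_lt_of_mem hx
  apply Nat.find_min hP hlt
  refine ⟨_, ?_, ?_, rfl⟩
  · intro a b hab
    by_cases ha : a = j
    · by_cases hb : b = j
      · rw [ha, hb]
      · subst ha
        rw [Function.update_self, Function.update_of_ne hb] at hab
        exact absurd hab.symm (hcon b)
    · by_cases hb : b = j
      · subst hb
        rw [Function.update_self, Function.update_of_ne ha] at hab
        exact absurd hab (hcon a)
      · rw [Function.update_of_ne ha, Function.update_of_ne hb] at hab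
        exact h1 hab
  · intro i
    by_cases hi : i = j
    · subst hi
      rw [Function.update_self]
      exact (Finset.erase_subset _ _).trans (h2 i)
    · rw [Function.update_of_ne hi]
      exact h2 i

/-- no four triples forming a 4-cycle with an apex -/
def Free {m : ℕ} (D : Finset (Finset (Fin m))) : Prop :=
  ∀ x y y' z z' : Fin m, [x, y, y', z, z'].Nodup → {x, y, z} ∈ D → {x, y, z'} ∈ D →
    {x, y', z} ∈ D → {x, y', z'} ∈ D → False

theorem card_le_four {m : ℕ} (D : Finset (Finset (Fin m))) (hfree : Free D)
    (hdown : ∀ S ∈ D, ∀ T ⊆ S, T ∈ D) (S : Finset (Fin m)) (hS : S ∈ D) : S.card ≤ 4 := by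
  classical
  by_contra hcon
  obtain ⟨S', hS', hcard⟩ := Finset.exists_subset_card_eq (show 5 ≤ S.card by omega)
  let g := S'.orderEmbOfFin hcard
  have hg : ∀ i, g i ∈ S := fun i => hS' (Finset.orderEmbOfFin_mem S' hcard i)
  have hgi : ∀ i j, i ≠ j → g i ≠ g j := fun i j hij h => hij (g.injective h)
  have sub : ∀ i j k : Fin 5, ({g i, g j, g k} : Finset (Fin m)) ∈ D := by
    intro i j k
    apply hdown S hS
    intro w hw
    simp only [mem_insert, mem_singleton] at hw
    rcases hw with rfl | rfl | rfl <;> exact hg _
  refine hfree (g 0) (g 1) (g 2) (g 3) (g 4) ?_ (sub _ _ _) (sub _ _ _) (sub _ _ _) (sub _ _ _)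
  simp only [List.nodup_cons, List.mem_cons, List.not_mem_nil, or_false, not_or,
    not_false_eq_true, List.nodup_nil, and_true]
  refine ⟨⟨?_, ?_, ?_, ?_⟩, ⟨?_, ?_, ?_⟩, ⟨?_, ?_⟩, ?_⟩ <;> exact hgi _ _ (by decide)

/-- A simple matrix without `F` gives a downset without four triples forming a 4-cycle with an
apex, of the same size. -/
theorem exists_free {m n : ℕ} (A : Matrix (Fin m) (Fin n) (Fin 2)) (hA : IsSimple A)
    (hF : ¬ HasBerge F A) : ∃ D : Finset (Finset (Fin m)), D.card = n ∧ Free D ∧
      ∀ S ∈ D, ∀ T ⊆ S, T ∈ D := by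
  classical
  let S : Fin n → Finset (Fin m) := fun j => univ.filter fun i => A i j = 1
  have hS : Function.Injective S := by
    intro j j' h
    apply hA
    intro i
    have h1 : i ∈ S j ↔ i ∈ S j' := by rw [h]
    simp only [S, mem_filter, mem_univ, true_and] at h1
    have two : ∀ a : Fin 2, a = 0 ∨ a = 1 := by decide
    rcases two (A i j) with h2 | h2 <;> rcases two (A i j') with h3 | h3 <;> simp_all
  obtain ⟨φ, hφ, hsub, herase⟩ := exists_down S hS
  let D : Finset (Finset (Fin m)) := univ.image φ
  have hmem : ∀ T, T ∈ D ↔ ∃ j, φ j = T := by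
    intro T; simp [D]
  have hcard : D.card = n := by
    rw [card_image_of_injective _ hφ, card_univ, Fintype.card_fin]
  have hdown : ∀ T ∈ D, ∀ U ⊆ T, U ∈ D := by
    intro T hT
    induction hk : T.card generalizing T with
    | zero =>
      intro U hU
      rw [card_eq_zero] at hk
      subst hk
      rw [subset_empty] at hU
      rw [hU]; exact hT
    | succ k ih =>
      intro U hU
      by_cases hUT : U = T
      · rw [hUT]; exact hT
      obtain ⟨x, hx, hxU⟩ := Finset.exists_of_ssubset (hU.ssubset_of_ne hUT)
      obtain ⟨j, rfl⟩ := (hmem T).1 hT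
      obtain ⟨j', hj'⟩ := herase j x hx
      refine ih ((φ j).erase x) ((hmem _).2 ⟨j', hj'⟩) ?_ U ?_
      · rw [card_erase_of_mem hx]; omega
      · intro w hw
        exact mem_erase.2 ⟨fun h => hxU (h ▸ hw), hU hw⟩
  have hfree : Free D := by
    intro x y y' z z' hnd h1 h2 h3 h4
    apply hF
    rw [hasBerge_iff]
    obtain ⟨j1, e1⟩ := (hmem _).1 h1
    obtain ⟨j2, e2⟩ := (hmem _).1 h2
    obtain ⟨j3, e3⟩ := (hmem _).1 h3
    obtain ⟨j4, e4⟩ := (hmem _).1 h4
    simp only [List.nodup_cons, List.mem_cons, List.not_mem_nil, or_false, not_or,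
      not_false_eq_true, List.nodup_nil, and_true] at hnd
    obtain ⟨⟨nxy, nxy', nxz, nxz'⟩, ⟨nyy', nyz, nyz'⟩, ⟨ny'z, ny'z'⟩, nzz'⟩ := hnd
    have key : ∀ j w, w ∈ φ j → A w j = 1 := by
      intro j w hw
      have := hsub j hw
      simpa [S] using this
    have d12 : j1 ≠ j2 := by
      rintro rfl
      have : z ∈ ({x, y, z'} : Finset (Fin m)) := by rw [← e2, e1]; simp
      simp only [mem_insert, mem_singleton] at this
      rcases this with h | h | h
      · exact nxz h.symm
      · exact nyz h.symm
      · exact nzz' h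
    have d13 : j1 ≠ j3 := by
      rintro rfl
      have : y ∈ ({x, y', z} : Finset (Fin m)) := by rw [← e3, e1]; simp
      simp only [mem_insert, mem_singleton] at this
      rcases this with h | h | h
      · exact nxy h.symm
      · exact nyy' h
      · exact nyz h
    have d14 : j1 ≠ j4 := by
      rintro rfl
      have : y ∈ ({x, y', z'} : Finset (Fin m)) := by rw [← e4, e1]; simp
      simp only [mem_insert, mem_singleton] at this
      rcases this with h | h | h
      · exact nxy h.symm
      · exact nyy' h
      · exact nyz' h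
    have d23 : j2 ≠ j3 := by
      rintro rfl
      have : y ∈ ({x, y', z} : Finset (Fin m)) := by rw [← e3, e2]; simp
      simp only [mem_insert, mem_singleton] at this
      rcases this with h | h | h
      · exact nxy h.symm
      · exact nyy' h
      · exact nyz h
    have d24 : j2 ≠ j4 := by
      rintro rfl
      have : y ∈ ({x, y', z'} : Finset (Fin m)) := by rw [← e4, e2]; simp
      simp only [mem_insert, mem_singleton] at this
      rcases this with h | h | h
      · exact nxy h.symm
      · exact nyy' h
      · exact nyz' h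
    have d34 : j3 ≠ j4 := by
      rintro rfl
      have : z ∈ ({x, y', z'} : Finset (Fin m)) := by rw [← e4, e3]; simp
      simp only [mem_insert, mem_singleton] at this
      rcases this with h | h | h
      · exact nxz h.symm
      · exact ny'z h.symm
      · exact nzz' h
    refine ⟨![x, y, y', z, z'], ![j1, j2, j3, j4], ?_, ?_, ?_⟩
    · intro a b hab
      fin_cases a <;> fin_cases b <;> simp at hab ⊢ <;>
        first
        | exact absurd hab (by assumption)
        | exact absurd hab.symm (by assumption)
    · intro a b hab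
      fin_cases a <;> fin_cases b <;> simp at hab ⊢ <;>
        first
        | exact absurd hab (by assumption)
        | exact absurd hab.symm (by assumption)
    · have k1 := fun w (hw : w ∈ ({x, y, z} : Finset (Fin m))) => key j1 w (e1 ▸ hw)
      have k2 := fun w (hw : w ∈ ({x, y, z'} : Finset (Fin m))) => key j2 w (e2 ▸ hw)
      have k3 := fun w (hw : w ∈ ({x, y', z} : Finset (Fin m))) => key j3 w (e3 ▸ hw)
      have k4 := fun w (hw : w ∈ ({x, y', z'} : Finset (Fin m))) => key j4 w (e4 ▸ hw)
      simp only [mem_insert, mem_singleton, forall_eq_or_imp, forall_eq] at k1 k2 k3 k4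
      intro a b
      fin_cases a <;> fin_cases b <;> simp [F, k1, k2, k3, k4]
  exact ⟨D, hcard, hfree, hdown⟩


end Pool.Agent.Lib.MP_4da166_co
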