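import Pool.Agent.Lib.MP_4da166_co.Defs

/-!
# The construction in the affine plane over a field of characteristic two

The columns are the triangles of area one of the affine plane over `K` and, for each such triangle
`x, y, z`, the set `{x, y, z, x + y + z}`; all triangles of this set have area one.
-/

set_option autoImplicit false

namespace Pool.Agent.Lib.MP_4da166_co

open Finset

section area

variable {K : Type*} [Field K]

/-- twice the signed area of a triangle -/
def area (x y z : K × K) : K :=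
  (y.1 - x.1) * (z.2 - x.2) - (y.2 - x.2) * (z.1 - x.1)

theorem area_rot (x y z : K × K) : area y z x = area x y z := by
  simp only [area]; ring

theorem area_left (x z : K × K) : area x x z = 0 := by
  simp only [area]; ring

theorem area_mid (x z : K × K) : area x z z = 0 := by
  simp only [area]; ring

theorem area_right (x z : K × K) : area x z x = 0 := by
  simp only [area]; ring

theorem ne_of_area {x y z : K × K} (h : area x y z = 1) : x ≠ y ∧ x ≠ z ∧ y ≠ z := by
  refine ⟨?_, ?_, ?_⟩
  · rintro rfl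
    rw [area_left] at h
    exact zero_ne_one h
  · rintro rfl
    rw [area_right] at h
    exact zero_ne_one h
  · rintro rfl
    rw [area_mid] at h
    exact zero_ne_one h

/-- No 4-cycle with an apex among the triangles of area one. -/
theorem area_key {x y y' z z' : K × K} (h1 : area x y z = 1) (h2 : area x y z' = 1)
    (h3 : area x y' z = 1) (h4 : area x y' z' = 1) : y = y' ∨ z = z' := by
  obtain ⟨l, hl⟩ : ∃ l, l = (y.1 - x.1) * (y.2 - y'.2) - (y.2 - x.2) * (y.1 - y'.1) := ⟨_, rfl⟩
  obtain ⟨n, hn⟩ : ∃ n, n = (z.1 - z'.1) * (z.2 - x.2) - (z.2 - z'.2) * (z.1 - x.1) := ⟨_, rfl⟩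
  simp only [area] at h1 h2 h3 h4
  have hw1 : y.1 - y'.1 = (z.1 - x.1) * l := by
    rw [hl]
    linear_combination (-(y.1 - y'.1) + (y.1 - x.1)) * h1 - (y.1 - x.1) * h3
  have hw2 : y.2 - y'.2 = (z.2 - x.2) * l := by
    rw [hl]
    linear_combination (-(y.2 - y'.2) + (y.2 - x.2)) * h1 - (y.2 - x.2) * h3
  have hd1 : z.1 - z'.1 = (y.1 - x.1) * n := by
    rw [hn]
    linear_combination (-(z.1 - z'.1) + (z.1 - x.1)) * h1 - (z.1 - x.1) * h2
  have hd2 : z.2 - z'.2 = (y.2 - x.2) * n := by
    rw [hn]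
    linear_combination (-(z.2 - z'.2) + (z.2 - x.2)) * h1 - (z.2 - x.2) * h2
  have hwd : (y.1 - y'.1) * (z.2 - z'.2) - (y.2 - y'.2) * (z.1 - z'.1) = 0 := by
    linear_combination h1 - h2 - h3 + h4
  rw [hw1, hw2, hd1, hd2] at hwd
  have hln : l * n = 0 := by linear_combination -hwd - l * n * h1
  rcases mul_eq_zero.1 hln with h | h
  · left
    rw [h, mul_zero] at hw1 hw2
    exact Prod.ext (sub_eq_zero.1 hw1) (sub_eq_zero.1 hw2)
  · right
    rw [h, mul_zero] at hd1 hd2
    exact Prod.ext (sub_eq_zero.1 hd1) (sub_eq_zero.1 hd2)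

variable [CharP K 2]

theorem area_swap (x y z : K × K) : area x z y = area x y z := by
  have h2 : (2 : K) = 0 := CharTwo.two_eq_zero
  simp only [area]
  linear_combination (-((y.1 - x.1) * (z.2 - x.2) - (y.2 - x.2) * (z.1 - x.1))) * h2

theorem area_fourth (x y z : K × K) : area x y (x + y + z) = area x y z := by
  have h2 : (2 : K) = 0 := CharTwo.two_eq_zero
  simp only [area, Prod.fst_add, Prod.snd_add]
  linear_combination (y.1 * x.2 - x.1 * y.2) * h2

theorem area_perm3 {a b c x y z : K × K} (h : area a b c = 1)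
    (hx : x = a ∨ x = b ∨ x = c) (hy : y = a ∨ y = b ∨ y = c) (hz : z = a ∨ z = b ∨ z = c)
    (hxy : x ≠ y) (hxz : x ≠ z) (hyz : y ≠ z) : area x y z = 1 := by
  have s1 := area_swap a b c
  have s2 := area_swap b a c
  have s3 := area_swap c a b
  have r1 := area_rot a b c
  have r2 := area_rot b c a
  have r3 := area_rot a c b
  have r4 := area_rot c b a
  rcases hx with rfl | rfl | rfl <;> rcases hy with rfl | rfl | rfl <;>
    rcases hz with rfl | rfl | rfl <;>
    first
    | exact absurd rfl hxy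
    | exact absurd rfl hxz
    | exact absurd rfl hyz
    | simp_all

theorem add3_ne {x y z : K × K} (h : y ≠ z) : x + y + z ≠ x := by
  intro h1
  apply h
  have h2 : y + z = 0 := by
    have : x + (y + z) = x := by rw [← add_assoc]; exact h1
    simpa using this
  have hK : (2 : K) = 0 := CharTwo.two_eq_zero
  have e1 : y.1 + z.1 = 0 := congrArg Prod.fst h2
  have e2 : y.2 + z.2 = 0 := congrArg Prod.snd h2
  apply Prod.ext
  · linear_combination e1 - z.1 * hK
  · linear_combination e2 - z.2 * hK

theorem area_four_one {a b c x y : K × K} (h : area a b c = 1)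
    (hx : x = a ∨ x = b ∨ x = c) (hy : y = a ∨ y = b ∨ y = c) (hxy : x ≠ y) :
    area x y (a + b + c) = 1 := by
  obtain ⟨hab, hac, hbc⟩ := ne_of_area h
  rcases hx with rfl | rfl | rfl <;> rcases hy with rfl | rfl | rfl
  · exact absurd rfl hxy
  · rw [area_fourth, h]
  · rw [show x + b + y = x + y + b by abel, area_fourth, area_swap, h]
  · rw [show y + x + c = x + y + c by abel, area_fourth]
    exact area_perm3 h (by simp) (by simp) (by simp) hxy hbc hac
  · exact absurd rfl hxy
  · rw [show a + x + y = x + y + a by abel, area_fourth, ← h, area_rot]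
  · rw [show y + b + x = x + y + b by abel, area_fourth]
    exact area_perm3 h (by simp) (by simp) (by simp) hxy hbc.symm hab
  · rw [show a + y + x = x + y + a by abel, area_fourth]
    exact area_perm3 h (by simp) (by simp) (by simp) hxy hac.symm hab.symm
  · exact absurd rfl hxy

theorem area_perm4 {a b c x y z : K × K} (h : area a b c = 1)
    (hx : x = a ∨ x = b ∨ x = c ∨ x = a + b + c) (hy : y = a ∨ y = b ∨ y = c ∨ y = a + b + c)
    (hz : z = a ∨ z = b ∨ z = c ∨ z = a + b + c)
    (hxy : x ≠ y) (hxz : x ≠ z) (hyz : y ≠ z) : area x y z = 1 := by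
  have hx' : (x = a ∨ x = b ∨ x = c) ∨ x = a + b + c := by tauto
  have hy' : (y = a ∨ y = b ∨ y = c) ∨ y = a + b + c := by tauto
  have hz' : (z = a ∨ z = b ∨ z = c) ∨ z = a + b + c := by tauto
  clear hx hy hz
  rcases hx' with hx | hx
  · rcases hy' with hy | hy
    · rcases hz' with hz | hz
      · exact area_perm3 h hx hy hz hxy hxz hyz
      · rw [hz]; exact area_four_one h hx hy hxy
    · rcases hz' with hz | hz
      · rw [hy, area_swap]; exact area_four_one h hx hz hxz
      · exact absurd (hy.trans hz.symm) hyz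
  · rcases hy' with hy | hy
    · rcases hz' with hz | hz
      · rw [hx, ← area_rot]; exact area_four_one h hy hz hyz
      · exact absurd (hx.trans hz.symm) hxz
    · exact absurd (hx.trans hy.symm) hxy

end area

section count

variable (K : Type*) [Field K] [Fintype K] [DecidableEq K]

/-- ordered triangles of area one -/
def Om : Finset ((K × K) × (K × K) × (K × K)) :=
  univ.filter fun t => area t.1 t.2.1 t.2.2 = 1

theorem Om_card : Fintype.card K ^ 2 * ((Fintype.card K ^ 2 - 1) * Fintype.card K) ≤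
    (Om K).card := by
  classical
  let f : (K × K) × {u : K × K // u ≠ 0} × K → Om K := fun t =>
    ⟨(t.1, t.1 + t.2.1.1, t.1 + (if t.2.1.1.1 ≠ 0 then (t.2.2, (1 + t.2.1.1.2 * t.2.2) / t.2.1.1.1)
      else (-1 / t.2.1.1.2, t.2.2))), by
      obtain ⟨x, ⟨u, hu⟩, s⟩ := t
      simp only [Om, mem_filter, mem_univ, true_and]
      by_cases h : u.1 ≠ 0
      · simp only [h, if_true, ne_eq, not_false_eq_true, area, Prod.fst_add, Prod.snd_add]
        field_simp
        ring
      · have h0 : u.1 = 0 := by simpa using h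
        have h1 : u.2 ≠ 0 := by
          intro h1
          exact hu (Prod.ext h0 h1)
        simp only [h, if_false, area, Prod.fst_add, Prod.snd_add]
        rw [h0]
        field_simp
        ring⟩
  have hf : Function.Injective f := by
    rintro ⟨x, ⟨u, hu⟩, s⟩ ⟨x', ⟨u', hu'⟩, s'⟩ h
    have h1 := congrArg Subtype.val h
    simp only [f, Prod.mk.injEq] at h1
    obtain ⟨rfl, h2, h3⟩ := h1
    have h4 : u = u' := add_left_cancel h2
    subst h4
    have h5 := add_left_cancel h3
    by_cases h6 : u.1 ≠ 0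
    · simp only [h6, if_true, ne_eq, not_false_eq_true, Prod.mk.injEq] at h5
      rw [h5.1]
    · simp only [h6, if_false, Prod.mk.injEq] at h5
      rw [h5.2]
  have h := Fintype.card_le_of_injective f hf
  rw [Fintype.card_prod, Fintype.card_prod, Fintype.card_prod, Fintype.card_coe] at h
  have h1 : Fintype.card {u : K × K // u ≠ 0} = Fintype.card K ^ 2 - 1 := by
    rw [Fintype.card_subtype_compl, Fintype.card_prod, Fintype.card_subtype_eq, sq]
  rw [h1] at h
  calc _ = Fintype.card K * Fintype.card K * ((Fintype.card K ^ 2 - 1) * Fintype.card K) := by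
        rw [sq]
    _ ≤ _ := h

theorem fiber_le {V : Type*} [DecidableEq V] (S : Finset V) (W : Finset (V × V × V))
    (h : ∀ t ∈ W, t.1 ∈ S ∧ t.2.1 ∈ S ∧ t.2.2 ∈ S ∧ t.1 ≠ t.2.1 ∧ t.1 ≠ t.2.2 ∧ t.2.1 ≠ t.2.2) :
    W.card ≤ S.card.descFactorial 3 := by
  classical
  let f : W → (Fin 3 ↪ S) := fun t =>
    ⟨![⟨t.1.1, (h t.1 t.2).1⟩, ⟨t.1.2.1, (h t.1 t.2).2.1⟩, ⟨t.1.2.2, (h t.1 t.2).2.2.1⟩], by
      obtain ⟨t, ht⟩ := t
      obtain ⟨-, -, -, h1, h2, h3⟩ := h t ht
      intro a b hab
      fin_cases a <;> fin_cases b <;> simp at hab ⊢ <;>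
        first
        | exact absurd hab (by assumption)
        | exact absurd hab.symm (by assumption)⟩
  have hf : Function.Injective f := by
    rintro ⟨⟨a, b, c⟩, ht⟩ ⟨⟨a', b', c'⟩, ht'⟩ hab
    have e0 := congrArg (fun g : Fin 3 ↪ S => (g 0 : V)) hab
    have e1 := congrArg (fun g : Fin 3 ↪ S => (g 1 : V)) hab
    have e2 := congrArg (fun g : Fin 3 ↪ S => (g 2 : V)) hab
    simp only [f, Function.Embedding.coeFn_mk, Matrix.cons_val_zero, Matrix.cons_val_one,
      Matrix.cons_val] at e0 e1 e2
    subst e0 e1 e2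
    rfl
  have := Fintype.card_le_of_injective f hf
  rw [Fintype.card_coe, Fintype.card_embedding_eq, Fintype.card_fin, Fintype.card_coe] at this
  exact this

/-- the columns with three ones -/
def fam3 : Finset (Finset (K × K)) := (Om K).image fun t => {t.1, t.2.1, t.2.2}

/-- the columns with four ones -/
def fam4 : Finset (Finset (K × K)) := (Om K).image fun t => {t.1, t.2.1, t.2.2, t.1 + t.2.1 + t.2.2}

theorem fam3_card : (Om K).card ≤ 6 * (fam3 K).card := by
  classical
  apply Finset.card_le_mul_card_image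
  intro S hS
  rw [mem_image] at hS
  obtain ⟨t, ht, rfl⟩ := hS
  have hcard : ({t.1, t.2.1, t.2.2} : Finset (K × K)).card ≤ 3 := card_le_three
  refine (fiber_le {t.1, t.2.1, t.2.2} _ ?_).trans
    ((Nat.descFactorial_le 3 hcard).trans (by decide))
  intro s hs
  rw [mem_filter] at hs
  obtain ⟨hs1, hs2⟩ := hs
  rw [← hs2]
  have h1 := ne_of_area (mem_filter.1 hs1).2
  exact ⟨by simp, by simp, by simp, h1⟩

theorem fam4_card : (Om K).card ≤ 24 * (fam4 K).card := by
  classical
  apply Finset.card_le_mul_card_image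
  intro S hS
  rw [mem_image] at hS
  obtain ⟨t, ht, rfl⟩ := hS
  have hcard : ({t.1, t.2.1, t.2.2, t.1 + t.2.1 + t.2.2} : Finset (K × K)).card ≤ 4 :=
    card_le_four
  refine (fiber_le {t.1, t.2.1, t.2.2, t.1 + t.2.1 + t.2.2} _ ?_).trans
    ((Nat.descFactorial_le 3 hcard).trans (by decide))
  intro s hs
  rw [mem_filter] at hs
  obtain ⟨hs1, hs2⟩ := hs
  rw [← hs2]
  have h1 := ne_of_area (mem_filter.1 hs1).2
  exact ⟨by simp, by simp, by simp, h1⟩

variable [CharP K 2]

theorem fam_disj : Disjoint (fam3 K) (fam4 K) := by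
  rw [Finset.disjoint_left]
  intro S h3 h4
  rw [fam3, mem_image] at h3
  rw [fam4, mem_image] at h4
  obtain ⟨t, -, rfl⟩ := h3
  obtain ⟨s, hs, hst⟩ := h4
  obtain ⟨n1, n2, n3⟩ := ne_of_area (mem_filter.1 hs).2
  have c3 : ({t.1, t.2.1, t.2.2} : Finset (K × K)).card ≤ 3 := card_le_three
  have m1 : s.1 + s.2.1 + s.2.2 ≠ s.1 := add3_ne n3
  have m2 : s.1 + s.2.1 + s.2.2 ≠ s.2.1 := by
    rw [show s.1 + s.2.1 + s.2.2 = s.2.1 + s.1 + s.2.2 by abel]; exact add3_ne n2
  have m3 : s.1 + s.2.1 + s.2.2 ≠ s.2.2 := by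
    rw [show s.1 + s.2.1 + s.2.2 = s.2.2 + s.1 + s.2.1 by abel]; exact add3_ne n1
  have c4 : ({s.1, s.2.1, s.2.2, s.1 + s.2.1 + s.2.2} : Finset (K × K)).card = 4 := by
    rw [card_insert_of_notMem, card_insert_of_notMem, card_insert_of_notMem, card_singleton] <;>
      simp only [mem_insert, mem_singleton, not_or]
    · exact m3.symm
    · exact ⟨n3, m2.symm⟩
    · exact ⟨n1, n2, m1.symm⟩
  rw [← hst, c4] at c3
  omega

/-- all columns -/
def fam : Finset (Finset (K × K)) := fam3 K ∪ fam4 K

theorem fam_card : 5 * (Fintype.card K ^ 2 * ((Fintype.card K ^ 2 - 1) * Fintype.card K)) ≤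
    24 * (fam K).card := by
  have h1 := Om_card K
  have h3 := fam3_card K
  have h4 := fam4_card K
  have h5 : (fam K).card = (fam3 K).card + (fam4 K).card := by
    rw [fam, card_union_of_disjoint (fam_disj K)]
  omega

theorem fam_area (S : Finset (K × K)) (hS : S ∈ fam K) (x y z : K × K) (hx : x ∈ S) (hy : y ∈ S)
    (hz : z ∈ S) (hxy : x ≠ y) (hxz : x ≠ z) (hyz : y ≠ z) : area x y z = 1 := by
  rw [fam, mem_union] at hS
  rcases hS with hS | hS
  · rw [fam3, mem_image] at hS
    obtain ⟨t, ht, rfl⟩ := hS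
    simp only [mem_insert, mem_singleton] at hx hy hz
    exact area_perm3 (mem_filter.1 ht).2 hx hy hz hxy hxz hyz
  · rw [fam4, mem_image] at hS
    obtain ⟨t, ht, rfl⟩ := hS
    simp only [mem_insert, mem_singleton] at hx hy hz
    exact area_perm4 (mem_filter.1 ht).2 hx hy hz hxy hxz hyz

/-- The number of columns is a lower bound for `Bh`. -/
theorem fam_le_Bh {m : ℕ} (h : Fintype.card K ^ 2 ≤ m) : (fam K).card ≤ Bh m F := by
  classical
  refine le_csSup (Bh_bdd m F) ?_
  have hcard : Fintype.card (K × K) ≤ Fintype.card (Fin m) := by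
    rw [Fintype.card_prod, Fintype.card_fin, ← sq]; exact h
  obtain ⟨ι⟩ := Function.Embedding.nonempty_of_card_le hcard
  let e := (fam K).equivFin
  let A : Matrix (Fin m) (Fin (fam K).card) (Fin 2) := fun i j =>
    if ∃ p ∈ (e.symm j).1, ι p = i then 1 else 0
  have hA1 : ∀ i j, A i j = 1 ↔ ∃ p ∈ (e.symm j).1, ι p = i := by
    intro i j
    by_cases h : ∃ p ∈ (e.symm j).1, ι p = i
    · simp only [A, h, if_true]
    · simp only [A, h, if_false]
      simp
  refine ⟨A, ?_, ?_⟩
  · intro j j' hjj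
    have h1 : (e.symm j).1 = (e.symm j').1 := by
      ext p
      have h2 : A (ι p) j = 1 ↔ A (ι p) j' = 1 := by rw [hjj]
      rw [hA1, hA1] at h2
      have h3 : ∀ S : Finset (K × K), (∃ p' ∈ S, ι p' = ι p) ↔ p ∈ S := by
        intro S
        constructor
        · rintro ⟨p', hp', h⟩
          rwa [← ι.injective h]
        · intro hp
          exact ⟨p, hp, rfl⟩
      rwa [h3, h3] at h2
    exact e.symm.injective (Subtype.ext h1)
  · rw [hasBerge_iff]
    rintro ⟨r, c, hr, hc, hle⟩
    have hone : ∀ i j, F i j = 1 → ∃ p ∈ (e.symm (c j)).1, ι p = r i := by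
      intro i j hij
      rw [← hA1]
      have := hle i j
      rw [hij] at this
      have two : ∀ a : Fin 2, 1 ≤ a → a = 1 := by decide
      exact two _ this
    have hrow : ∀ i, ∃ p, ι p = r i := by
      intro i
      have hF : ∃ j, F i j = 1 := ⟨![0, 0, 2, 0, 1] i, by fin_cases i <;> rfl⟩
      obtain ⟨j, hj⟩ := hF
      obtain ⟨p, -, hp⟩ := hone i j hj
      exact ⟨p, hp⟩
    choose p hp using hrow
    have hmem : ∀ i j, F i j = 1 → p i ∈ (e.symm (c j)).1 := by
      intro i j hij
      obtain ⟨p', hp', h⟩ := hone i j hij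
      rw [← hp] at h
      rwa [← ι.injective h]
    have hinj : ∀ i i', i ≠ i' → p i ≠ p i' := by
      intro i i' h h'
      apply h
      apply hr
      rw [← hp, ← hp, h']
    have har : ∀ (i i' i'' : Fin 5) (j : Fin 4), F i j = 1 → F i' j = 1 → F i'' j = 1 →
        i ≠ i' → i ≠ i'' → i' ≠ i'' → area (p i) (p i') (p i'') = 1 := by
      intro i i' i'' j h1 h2 h3 n1 n2 n3
      exact fam_area K _ (e.symm (c j)).2 _ _ _ (hmem i j h1) (hmem i' j h2) (hmem i'' j h3)
        (hinj _ _ n1) (hinj _ _ n2) (hinj _ _ n3)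
    have E0 := har 0 1 3 0 (by decide) (by decide) (by decide) (by decide) (by decide) (by decide)
    have E1 := har 0 1 4 1 (by decide) (by decide) (by decide) (by decide) (by decide) (by decide)
    have E2 := har 0 2 3 2 (by decide) (by decide) (by decide) (by decide) (by decide) (by decide)
    have E3 := har 0 2 4 3 (by decide) (by decide) (by decide) (by decide) (by decide) (by decide)
    rcases area_key E0 E1 E2 E3 with h | h
    · exact hinj 1 2 (by decide) h
    · exact hinj 3 4 (by decide) h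

end count

/-- The lower bound for `m ≥ 4 ^ e`. -/
theorem lower_sharp {m e : ℕ} (h : 4 ^ e ≤ m) :
    5 * (4 ^ e * ((4 ^ e - 1) * 2 ^ e)) ≤ 24 * Bh m F := by
  classical
  rcases Nat.eq_zero_or_pos e with rfl | he
  · simp
  have : Fact (Nat.Prime 2) := ⟨Nat.prime_two⟩
  let K := GaloisField 2 e
  have : Fintype K := Fintype.ofFinite K
  have hK : Fintype.card K = 2 ^ e := by
    rw [← Nat.card_eq_fintype_card]
    exact GaloisField.card 2 e (by omega)
  have h1 := fam_card K
  have h2 : Fintype.card K ^ 2 = 4 ^ e := by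
    rw [hK, ← pow_mul, mul_comm, pow_mul]
    norm_num
  rw [h2, hK] at h1
  have h3 := fam_le_Bh K (m := m) (by rw [h2]; exact h)
  omega

end Pool.Agent.Lib.MP_4da166_co
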