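import Pool.Agent.Lib.MP_4da166_co.Down

/-!
# The sharp upper bound
-/

set_option autoImplicit false

namespace Pool.Agent.Lib.MP_4da166_co

open Finset

/-- The number of incidences of a symmetric relation without a 4-cycle. -/
theorem link_sharp {m : ℕ} (R : Fin m → Fin m → Prop) [DecidableRel R]
    (hR : ∀ y y' z z', y ≠ y' → z ≠ z' → R y z → R y z' → R y' z → R y' z' → False) :
    (∑ y, ∑ z, if R y z then 1 else 0) ^ 2 ≤
      m * (∑ y, ∑ z, if R y z then 1 else 0) + m * (m * (m - 1)) := by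
  have h1 : (∑ z, ∑ y, if R y z then 1 else 0) ^ 2 ≤
      (univ : Finset (Fin m)).card * ∑ z, (∑ y, if R y z then 1 else 0) ^ 2 :=
    sq_sum_le_card_mul_sum_sq
  rw [Finset.sum_comm]
  refine h1.trans ?_
  rw [card_univ, Fintype.card_fin, ← mul_add]
  refine Nat.mul_le_mul_left _ ?_
  have h2 : ∑ z, (∑ y, if R y z then 1 else 0) ^ 2 =
      ∑ y, ∑ y', ∑ z, (if R y z then 1 else 0) * (if R y' z then 1 else 0) := by
    simp_rw [sq, Finset.sum_mul_sum]
    rw [Finset.sum_comm]
    refine Finset.sum_congr rfl fun y _ => ?_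
    rw [Finset.sum_comm]
  have h3 : ∀ y y' : Fin m, ∑ z, (if R y z then 1 else 0) * (if R y' z then 1 else 0) ≤
      (if y = y' then ∑ z, (if R y z then 1 else 0) else 1) := by
    intro y y'
    split_ifs with h
    · subst h
      refine sum_le_sum fun z _ => ?_
      split_ifs <;> simp
    · have e : ∑ z, (if R y z then 1 else 0) * (if R y' z then 1 else 0) =
          (univ.filter fun z => R y z ∧ R y' z).card := by
        rw [Finset.card_filter]
        refine sum_congr rfl fun z _ => ?_
        by_cases a : R y z <;> by_cases b : R y' z <;> simp [a, b]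
      rw [e, Finset.card_le_one]
      intro z hz z' hz'
      by_contra hne
      simp only [mem_filter, mem_univ, true_and] at hz hz'
      exact hR y y' z z' h hne hz.1 hz'.1 hz.2 hz'.2
  rw [h2]
  calc ∑ y, ∑ y', ∑ z, (if R y z then 1 else 0) * (if R y' z then 1 else 0)
      ≤ ∑ y : Fin m, ∑ y' : Fin m, (if y = y' then ∑ z, (if R y z then 1 else 0) else 1) := by
        gcongr with y _ y' _
        exact h3 _ _
    _ = ∑ y : Fin m, ((∑ z, if R y z then 1 else 0) + (m - 1)) := by
        refine sum_congr rfl fun y _ => ?_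
        rw [← Finset.add_sum_erase univ _ (mem_univ y)]
        simp only [if_true]
        congr 1
        rw [Finset.sum_congr rfl (g := fun _ => 1)]
        · rw [sum_const, card_erase_of_mem (mem_univ y), card_univ, Fintype.card_fin, smul_eq_mul,
            mul_one]
        · intro y' hy'
          rw [if_neg (fun h => (mem_erase.1 hy').1 h.symm)]
    _ = (∑ z, ∑ y, if R y z then 1 else 0) + m * (m - 1) := by
        rw [sum_add_distrib, Finset.sum_comm]
        simp

/-- A triple of a free downset lies in at most one 4-set. -/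
theorem four_mul_four_le {m : ℕ} (D : Finset (Finset (Fin m))) (hfree : Free D)
    (hdown : ∀ S ∈ D, ∀ T ⊆ S, T ∈ D) :
    4 * (D.filter fun S => S.card = 4).card ≤ (D.filter fun S => S.card = 3).card := by
  classical
  have huniq : ∀ S ∈ D, ∀ S' ∈ D, S.card = 4 → S'.card = 4 → ∀ x ∈ S, ∀ x' ∈ S',
      S.erase x = S'.erase x' → S = S' := by
    intro S hSD S' hSD' hS4 hS4' x hx x' hx' heq
    by_cases hxx : x = x'
    · rw [← insert_erase hx, ← insert_erase hx', heq, hxx]
    exfalso
    have h3 : (S.erase x).card = 3 := by rw [card_erase_of_mem hx]; omega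
    obtain ⟨a, b, c, hab, hac, hbc, hT⟩ := Finset.card_eq_three.1 h3
    have n1 : x ∉ S.erase x := notMem_erase _ _
    have n2 : x' ∉ S.erase x := by rw [heq]; exact notMem_erase _ _
    rw [hT] at n1 n2
    simp only [mem_insert, mem_singleton, not_or] at n1 n2
    have hTS : ∀ w ∈ ({a, b, c} : Finset (Fin m)), w ∈ S := by
      intro w hw; rw [← hT] at hw; exact mem_of_mem_erase hw
    have hTS' : ∀ w ∈ ({a, b, c} : Finset (Fin m)), w ∈ S' := by
      intro w hw; rw [← hT, heq] at hw; exact mem_of_mem_erase hw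
    have ha := hTS a (by simp)
    have hb := hTS b (by simp)
    have hc := hTS c (by simp)
    have ha' := hTS' a (by simp)
    have hb' := hTS' b (by simp)
    have hc' := hTS' c (by simp)
    have sub : ∀ (U : Finset (Fin m)) (x y z : Fin m), x ∈ U → y ∈ U → z ∈ U →
        ({x, y, z} : Finset (Fin m)) ⊆ U := by
      intro U x y z h1 h2 h3 w hw
      simp only [mem_insert, mem_singleton] at hw
      rcases hw with rfl | rfl | rfl <;> assumption
    refine hfree a b c x x' ?_ (hdown S hSD _ (sub _ _ _ _ ha hb hx))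
      (hdown S' hSD' _ (sub _ _ _ _ ha' hb' hx')) (hdown S hSD _ (sub _ _ _ _ ha hc hx))
      (hdown S' hSD' _ (sub _ _ _ _ ha' hc' hx'))
    simp only [List.nodup_cons, List.mem_cons, List.not_mem_nil, or_false, not_or,
      not_false_eq_true, List.nodup_nil, and_true]
    exact ⟨⟨hab, hac, fun h => n1.1 h.symm, fun h => n2.1 h.symm⟩,
      ⟨hbc, fun h => n1.2.1 h.symm, fun h => n2.2.1 h.symm⟩,
      ⟨fun h => n1.2.2 h.symm, fun h => n2.2.2 h.symm⟩, hxx⟩
  -- the pairs (4-set, removed point)
  let Pr : Finset (Σ _ : Finset (Fin m), Fin m) := (D.filter fun S => S.card = 4).sigma fun S => S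
  have hPr : Pr.card = 4 * (D.filter fun S => S.card = 4).card := by
    rw [Finset.card_sigma, Finset.sum_congr rfl (g := fun _ => 4)]
    · rw [sum_const, smul_eq_mul, mul_comm]
    · intro S hS
      exact (mem_filter.1 hS).2
  rw [← hPr]
  apply Finset.card_le_card_of_injOn (fun t => t.1.erase t.2)
  · rintro ⟨S, x⟩ ht
    simp only [Pr, coe_sigma, Set.mem_sigma_iff, mem_coe, mem_filter] at ht
    simp only [coe_filter, Set.mem_ofPred_eq]
    exact ⟨hdown S ht.1.1 _ (erase_subset _ _), by rw [card_erase_of_mem ht.2]; omega⟩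
  · rintro ⟨S, x⟩ ht ⟨S', x'⟩ ht' heq
    simp only [Pr, coe_sigma, Set.mem_sigma_iff, mem_coe, mem_filter] at ht ht'
    simp only at heq
    have hSS := huniq S ht.1.1 S' ht'.1.1 ht.1.2 ht'.1.2 x ht.2 x' ht'.2 heq
    subst hSS
    have : x = x' := by
      by_contra hne
      have h1 : x' ∈ S.erase x := mem_erase.2 ⟨fun h => hne h.symm, ht'.2⟩
      rw [heq] at h1
      exact notMem_erase _ _ h1
    rw [this]

/-- The number of ordered representations of a triple. -/
theorem six_mul_triples_le {m : ℕ} (D : Finset (Finset (Fin m))) :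
    6 * (D.filter fun S => S.card = 3).card ≤
      ∑ x, ∑ y, ∑ z, if (x ≠ y ∧ x ≠ z ∧ y ≠ z ∧ ({x, y, z} : Finset (Fin m)) ∈ D) then 1 else 0 := by
  classical
  let R : Fin m → Fin m → Fin m → Prop := fun x y z => x ≠ y ∧ x ≠ z ∧ y ≠ z ∧
    ({x, y, z} : Finset (Fin m)) ∈ D
  let U : Finset (Fin m × Fin m × Fin m) := univ.filter fun t => R t.1 t.2.1 t.2.2
  have hU : U.card = ∑ x, ∑ y, ∑ z, if (x ≠ y ∧ x ≠ z ∧ y ≠ z ∧
      ({x, y, z} : Finset (Fin m)) ∈ D) then 1 else 0 := by
    simp only [U, R]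
    rw [card_filter, Fintype.sum_prod_type]
    simp_rw [Fintype.sum_prod_type]
  rw [← hU]
  have key : ∀ S ∈ D.filter fun S => S.card = 3,
      6 ≤ (U.filter fun t => ({t.1, t.2.1, t.2.2} : Finset (Fin m)) = S).card := by
    intro S hS
    rw [mem_filter] at hS
    obtain ⟨x, y, z, hxy, hxz, hyz, rfl⟩ := Finset.card_eq_three.1 hS.2
    have hsub : ({(x, y, z), (x, z, y), (y, x, z), (y, z, x), (z, x, y), (z, y, x)} :
        Finset (Fin m × Fin m × Fin m)) ⊆
        U.filter fun t => ({t.1, t.2.1, t.2.2} : Finset (Fin m)) = {x, y, z} := by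
      intro t ht
      simp only [mem_insert, mem_singleton] at ht
      simp only [U, R, mem_filter, mem_univ, true_and]
      have perm : ∀ a b c : Fin m, ({a, b, c} : Finset (Fin m)) = {x, y, z} → a ≠ b → a ≠ c →
          b ≠ c → (a ≠ b ∧ a ≠ c ∧ b ≠ c ∧ ({a, b, c} : Finset (Fin m)) ∈ D) ∧
            ({a, b, c} : Finset (Fin m)) = {x, y, z} := by
        intro a b c h h1 h2 h3
        exact ⟨⟨h1, h2, h3, by rw [h]; exact hS.1⟩, h⟩
      rcases ht with rfl | rfl | rfl | rfl | rfl | rfl
      · exact perm _ _ _ rfl hxy hxz hyz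
      · exact perm _ _ _ (by ext w; simp; tauto) hxz hxy hyz.symm
      · exact perm _ _ _ (by ext w; simp; tauto) hxy.symm hyz hxz
      · exact perm _ _ _ (by ext w; simp; tauto) hyz hxy.symm hxz.symm
      · exact perm _ _ _ (by ext w; simp; tauto) hxz.symm hyz.symm hxy
      · exact perm _ _ _ (by ext w; simp; tauto) hyz.symm hxz.symm hxy.symm
    refine le_trans ?_ (card_le_card hsub)
    rw [card_insert_of_notMem, card_insert_of_notMem, card_insert_of_notMem, card_insert_of_notMem,
      card_insert_of_notMem, card_singleton] <;>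
      simp [hxy, hxz, hyz, hxy.symm, hxz.symm, hyz.symm]
  have hle : ∑ S ∈ D.filter (fun S => S.card = 3),
      (U.filter fun t => ({t.1, t.2.1, t.2.2} : Finset (Fin m)) = S).card ≤ U.card := by
    rw [← Finset.card_biUnion]
    · apply card_le_card
      intro t ht
      rw [mem_biUnion] at ht
      obtain ⟨S, -, ht⟩ := ht
      exact (mem_filter.1 ht).1
    · intro S _ S' _ hne
      rw [Function.onFun, Finset.disjoint_left]
      intro t ht ht'
      exact hne ((mem_filter.1 ht).2.symm.trans (mem_filter.1 ht').2)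
  refine le_trans ?_ hle
  calc 6 * (D.filter fun S => S.card = 3).card = ∑ S ∈ D.filter (fun S => S.card = 3), 6 := by
        rw [sum_const, smul_eq_mul, mul_comm]
    _ ≤ _ := sum_le_sum key

/-- The number of triples of a free family. -/
theorem triples_sharp {m : ℕ} (D : Finset (Finset (Fin m))) (hfree : Free D) :
    (6 : ℝ) * (D.filter fun S => S.card = 3).card ≤
      m * ((m : ℝ) ^ (3 / 2 : ℝ) + m / 2) := by
  classical
  have h6 := six_mul_triples_le D
  let R : Fin m → Fin m → Fin m → Prop := fun x y z => x ≠ y ∧ x ≠ z ∧ y ≠ z ∧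
    ({x, y, z} : Finset (Fin m)) ∈ D
  have hlink : ∀ x, (∑ y, ∑ z, if R x y z then 1 else 0) ^ 2 ≤
      m * (∑ y, ∑ z, if R x y z then 1 else 0) + m * (m * (m - 1)) := by
    intro x
    apply link_sharp
    rintro y y' z z' hy hz ⟨h1, h2, h3, h4⟩ ⟨h5, h6, h7, h8⟩ ⟨h9, h10, h11, h12⟩
      ⟨h13, h14, h15, h16⟩
    refine hfree x y y' z z' ?_ h4 h8 h12 h16
    simp only [List.nodup_cons, List.mem_cons, List.not_mem_nil, or_false, not_or,
      not_false_eq_true, List.nodup_nil, and_true]
    exact ⟨⟨h1, h9, h2, h6⟩, ⟨hy, h3, h7⟩, ⟨h11, h15⟩, hz⟩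
  have hm : (0 : ℝ) ≤ m := Nat.cast_nonneg m
  have hsq : ((m : ℝ) ^ (3 / 2 : ℝ)) ^ 2 = (m : ℝ) ^ 3 := by
    rw [← Real.rpow_natCast, ← Real.rpow_mul hm, ← Real.rpow_natCast]
    norm_num
  have hp : (0 : ℝ) ≤ (m : ℝ) ^ (3 / 2 : ℝ) := Real.rpow_nonneg hm _
  have hbound : ∀ x, ((∑ y, ∑ z, if R x y z then 1 else 0 : ℕ) : ℝ) ≤
      (m : ℝ) ^ (3 / 2 : ℝ) + m / 2 := by
    intro x
    have h := hlink x
    generalize (∑ y, ∑ z, if R x y z then 1 else 0 : ℕ) = s at h
    by_contra hcon
    push Not at hcon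
    have h' : (s : ℝ) ^ 2 ≤ m * s + m * (m * m) - m * m := by
      rcases Nat.eq_zero_or_pos m with rfl | hpos
      · have : s = 0 := by simpa using h
        subst this; simp
      · have h1 : (s : ℝ) ^ 2 ≤ m * s + m * (m * ((m - 1 : ℕ) : ℝ)) := by exact_mod_cast h
        rw [Nat.cast_sub hpos, Nat.cast_one] at h1
        nlinarith
    nlinarith
  have hsum : ((∑ x, ∑ y, ∑ z, if R x y z then 1 else 0 : ℕ) : ℝ) ≤
      ∑ _x : Fin m, ((m : ℝ) ^ (3 / 2 : ℝ) + m / 2) := by
    rw [Nat.cast_sum]
    exact sum_le_sum fun x _ => hbound x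
  rw [sum_const, card_univ, Fintype.card_fin, nsmul_eq_mul] at hsum
  refine le_trans ?_ hsum
  exact_mod_cast h6

theorem rpow_five {m : ℕ} : (m : ℝ) * (m : ℝ) ^ (3 / 2 : ℝ) = (m : ℝ) ^ (5 / 2 : ℝ) := by
  rcases Nat.eq_zero_or_pos m with rfl | hpos
  · norm_num
  · have h : (0 : ℝ) < m := by exact_mod_cast hpos
    conv_lhs => rw [← Real.rpow_one (m : ℝ)]
    rw [Real.rpow_one]
    nth_rewrite 1 [← Real.rpow_one (m : ℝ)]
    rw [← Real.rpow_add h]
    norm_num

/-- The sharp upper bound. -/
theorem upper_sharp (m : ℕ) :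
    (Bh m F : ℝ) ≤ 5 / 24 * (m : ℝ) ^ (5 / 2 : ℝ) + (m : ℝ) ^ 2 + 2 := by
  classical
  obtain ⟨A, hA, hF⟩ := (Bh_isGreatest m F).1
  obtain ⟨D, hcard, hfree, hdown⟩ := exists_free A hA hF
  have h4 := four_mul_four_le D hfree hdown
  have h3 := triples_sharp D hfree
  have hsub : D ⊆ ((powersetCard 0 univ ∪ powersetCard 1 univ) ∪ powersetCard 2 univ) ∪
      ((D.filter fun S => S.card = 3) ∪ (D.filter fun S => S.card = 4)) := by
    intro S hS
    have := card_le_four D hfree hdown S hS
    simp only [mem_union, mem_powersetCard, subset_univ, true_and, mem_filter, hS]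
    omega
  have e0 : (powersetCard 0 (univ : Finset (Fin m))).card = 1 := by simp
  have e1 : (powersetCard 1 (univ : Finset (Fin m))).card = m := by simp
  have e2 : 2 * (powersetCard 2 (univ : Finset (Fin m))).card + m = m ^ 2 := by
    rw [card_powersetCard, card_univ, Fintype.card_fin, Nat.choose_two_right,
      Nat.mul_div_cancel' (Nat.even_mul_pred_self m).two_dvd]
    rcases m with _ | m
    · rfl
    · simp only [Nat.add_sub_cancel]; ring
  have := card_le_card hsub
  have u1 := card_union_le ((powersetCard 0 (univ : Finset (Fin m)) ∪ powersetCard 1 univ) ∪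
    powersetCard 2 univ) ((D.filter fun S => S.card = 3) ∪ (D.filter fun S => S.card = 4))
  have u2 := card_union_le (powersetCard 0 (univ : Finset (Fin m)) ∪ powersetCard 1 univ)
    (powersetCard 2 univ)
  have u3 := card_union_le (powersetCard 0 (univ : Finset (Fin m))) (powersetCard 1 univ)
  have u4 := card_union_le (D.filter fun S => S.card = 3) (D.filter fun S => S.card = 4)
  have hn : Bh m F ≤ 1 + m + (powersetCard 2 (univ : Finset (Fin m))).card +
      ((D.filter fun S => S.card = 3).card + (D.filter fun S => S.card = 4).card) := by omega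
  have hn' : (Bh m F : ℝ) ≤ 1 + m + (powersetCard 2 (univ : Finset (Fin m))).card +
      ((D.filter fun S => S.card = 3).card + (D.filter fun S => S.card = 4).card) := by
    exact_mod_cast hn
  have h4' : (4 : ℝ) * (D.filter fun S => S.card = 4).card ≤
      (D.filter fun S => S.card = 3).card := by exact_mod_cast h4
  have e2' : (2 : ℝ) * (powersetCard 2 (univ : Finset (Fin m))).card + m = (m : ℝ) ^ 2 := by
    exact_mod_cast e2
  have h5 := rpow_five (m := m)
  rw [mul_add, h5] at h3
  nlinarith [sq_nonneg ((m : ℝ) - 1)]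

end Pool.Agent.Lib.MP_4da166_co
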